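import Pool.Agent.H520Z.Sel.Defs3
import Pool.Agent.Helper242.KK.Gam2
import Pool.Agent.Helper242.KK.Gam1

set_option autoImplicit false

namespace Pool.Agent.H458Z.SelAux

lemma norm_sinh_le (z : ℂ) : ‖Complex.sinh z‖ ≤ Real.cosh z.re := by
  rw [Complex.sinh, Real.cosh_eq, norm_div]
  have h := norm_sub_le (Complex.exp z) (Complex.exp (-z))
  rw [Complex.norm_exp, Complex.norm_exp, Complex.neg_re] at h
  have : ‖(2 : ℂ)‖ = 2 := by simp
  rw [this]
  linarith

lemma sinh_le_norm (z : ℂ) : Real.sinh z.re ≤ ‖Complex.sinh z‖ := by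
  rw [Complex.sinh, Real.sinh_eq, norm_div]
  have h := norm_sub_norm_le (Complex.exp z) (Complex.exp (-z))
  rw [Complex.norm_exp, Complex.norm_exp, Complex.neg_re] at h
  have : ‖(2 : ℂ)‖ = 2 := by simp
  rw [this]
  linarith

open Pool.Agent.H520Z.Sel

lemma pz_bounds (k b T s : ℝ) (hT : 0 < T) (hb : k / 2 < b) (hs : b < s) :
    ∃ L U : ℝ, 0 < L ∧ ∀ u : ℝ, L ≤ ‖Pz k b T ((s : ℂ) + u * Complex.I)‖ ∧
      ‖Pz k b T ((s : ℂ) + u * Complex.I)‖ ≤ U := by
  have e1 : ∀ u : ℝ, ((Real.pi : ℂ) * (((s : ℂ) + u * Complex.I) - b) / T).re =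
      Real.pi * (s - b) / T := by
    intro u
    rw [Complex.div_ofReal_re]
    simp
  have e2 : ∀ u : ℝ, ((Real.pi : ℂ) * (((s : ℂ) + u * Complex.I) - k + b) / T).re =
      Real.pi * (s - k + b) / T := by
    intro u
    rw [Complex.div_ofReal_re]
    simp
  have p1 : 0 < Real.sinh (Real.pi * (s - b) / T) := by
    rw [Real.sinh_pos_iff]
    exact div_pos (mul_pos Real.pi_pos (by linarith)) hT
  have p2 : 0 < Real.sinh (Real.pi * (s - k + b) / T) := by
    rw [Real.sinh_pos_iff]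
    exact div_pos (mul_pos Real.pi_pos (by linarith)) hT
  refine ⟨Real.sinh (Real.pi * (s - b) / T) * Real.sinh (Real.pi * (s - k + b) / T),
    Real.cosh (Real.pi * (s - b) / T) * Real.cosh (Real.pi * (s - k + b) / T),
    mul_pos p1 p2, fun u => ?_⟩
  rw [Pz, norm_mul]
  constructor
  · apply mul_le_mul _ _ p2.le (norm_nonneg _)
    · rw [← e1 u]; exact sinh_le_norm _
    · rw [← e2 u]; exact sinh_le_norm _
  · apply mul_le_mul _ _ (norm_nonneg _) (Real.cosh_pos _).le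
    · rw [← e1 u]; exact norm_sinh_le _
    · rw [← e2 u]; exact norm_sinh_le _

lemma weight_le (a u v : ℝ) : (1 + |u|) ^ a ≤ (1 + |v|) ^ a * Real.exp (|a| * |u - v|) := by
  have hu : 0 < 1 + |u| := by positivity
  have hv : 0 < 1 + |v| := by positivity
  have key : ∀ x y : ℝ, Real.log (1 + |x|) - Real.log (1 + |y|) ≤ |x - y| := by
    intro x y
    have hx : 0 < 1 + |x| := by positivity
    have hy : 0 < 1 + |y| := by positivity
    rw [← Real.log_div hx.ne' hy.ne']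
    refine (Real.log_le_sub_one_of_pos (div_pos hx hy)).trans ?_
    rw [div_sub_one hy.ne', div_le_iff₀ hy]
    have h1 := abs_sub_abs_le_abs_sub x y
    nlinarith [abs_nonneg (x - y), abs_nonneg y]
  rw [Real.rpow_def_of_pos hu, Real.rpow_def_of_pos hv, ← Real.exp_add]
  apply Real.exp_le_exp.2
  have h1 : |Real.log (1 + |u|) - Real.log (1 + |v|)| ≤ |u - v| := by
    rw [abs_le]
    constructor
    · have := key v u
      rw [abs_sub_comm] at this
      linarith
    · exact key u v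
  have h2 : (Real.log (1 + |u|) - Real.log (1 + |v|)) * a ≤ |a| * |u - v| := by
    refine (le_abs_self _).trans ?_
    rw [abs_mul, mul_comm]
    exact mul_le_mul_of_nonneg_left h1 (abs_nonneg _)
  linarith

end Pool.Agent.H458Z.SelAux

namespace Pool.Agent.H520Z.Sel

open MeasureTheory Set Filter Topology

theorem psi_bounds (k b T c c1 : ℝ) (hT : 0 < T) (hk : 0 < k) (hb : k / 2 < b) (hbc : b < c1)
    (hc : c1 + 6 ≤ c) : ∃ K0 K A : ℝ, 0 < K0 ∧
    (∀ u v : ℝ, K0 * (1 + |u|) ^ (5 / 2 - c) * Real.exp (Real.pi / 2 * |u|) ≤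
      K0 * (1 + |v|) ^ (5 / 2 - c) * Real.exp (Real.pi / 2 * |v|) * Real.exp (A * |u - v|)) ∧
    (∀ u : ℝ, 1 ≤ K0 * (1 + |u|) ^ (5 / 2 - c) * Real.exp (Real.pi / 2 * |u|) *
      ‖Psi2 k b T (c - 1 / 2) u‖) ∧
    (∀ u : ℝ, K0 * (1 + |u|) ^ (5 / 2 - c) * Real.exp (Real.pi / 2 * |u|) * ‖Psi1 k b T c1 u‖
      ≤ K / (1 + u ^ 2)) := by
  obtain ⟨L2, U2, hL2, h2⟩ := H458Z.SelAux.pz_bounds k b T (c - 1 / 2) hT hb (by linarith)
  obtain ⟨L1, U1, hL1, h1⟩ := H458Z.SelAux.pz_bounds k b T c1 hT hb hbc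
  obtain ⟨C, hC, hCb⟩ := Pool.Agent.Helper242.KK.inv_Gamma_bound (ε := 1) one_pos
  have hU2 : 0 < U2 := hL2.trans_le ((h2 0).1.trans (h2 0).2)
  have hc1 : 0 < c1 := by linarith
  set K0 : ℝ := C * Real.exp (1 * (c - 1 / 2) ^ 2) * U2 with hK0
  have hK0p : 0 < K0 := by positivity
  refine ⟨K0, K0 * ((c1 + 1) * (Real.exp 1 * Real.Gamma c1 * (Real.pi / 2) ^ c1) / L1),
    |5 / 2 - c| + Real.pi / 2, hK0p, fun u v => ?_, fun u => ?_, fun u => ?_⟩
  · have a1 := H458Z.SelAux.weight_le (5 / 2 - c) u v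
    have a2 : Real.exp (Real.pi / 2 * |u|) ≤
        Real.exp (Real.pi / 2 * |v|) * Real.exp (Real.pi / 2 * |u - v|) := by
      rw [← Real.exp_add]
      apply Real.exp_le_exp.2
      have := abs_sub_abs_le_abs_sub u v
      nlinarith [Real.pi_pos]
    have a3 := mul_le_mul a1 a2 (Real.exp_pos _).le (by positivity)
    rw [add_mul, Real.exp_add]
    have a4 := mul_le_mul_of_nonneg_left a3 hK0p.le
    linarith
  · have a1 := hCb (c - 1 / 2) u
    have e : 2 - (c - 1 / 2) = 5 / 2 - c := by ring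
    rw [e] at a1
    have hG : Complex.Gamma (((c - 1 / 2 : ℝ) : ℂ) + u * Complex.I) ≠ 0 := by
      apply Complex.Gamma_ne_zero_of_re_pos
      simp only [Complex.add_re, Complex.ofReal_re, Complex.mul_re, Complex.I_re, mul_zero,
        Complex.ofReal_im, Complex.I_im, mul_one, sub_self, add_zero]
      linarith
    have hP : 0 < ‖Pz k b T (((c - 1 / 2 : ℝ) : ℂ) + u * Complex.I)‖ := hL2.trans_le (h2 u).1
    have hGp : 0 < ‖Complex.Gamma (((c - 1 / 2 : ℝ) : ℂ) + u * Complex.I)‖ := norm_pos_iff.2 hG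
    rw [Psi2, norm_div, ← mul_div_assoc, le_div_iff₀ hP, one_mul]
    refine (h2 u).2.trans ?_
    rw [norm_inv, inv_le_iff_one_le_mul₀ hGp] at a1
    have a2 := mul_le_mul_of_nonneg_left a1 hU2.le
    rw [hK0]
    linarith
  · have a1 := Pool.Agent.Helper242.KK.norm_Gamma_le (σ := c1) u hc1
    have hu : 0 < 1 + |u| := by positivity
    have hw : ‖(c1 : ℂ) + u * Complex.I‖ ≤ (c1 + 1) * (1 + |u|) := by
      refine (norm_add_le _ _).trans ?_
      rw [norm_mul, Complex.norm_I, mul_one, Complex.norm_real, Complex.norm_real,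
        Real.norm_eq_abs, Real.norm_eq_abs, abs_of_pos hc1]
      nlinarith [abs_nonneg u]
    have hΓ : 0 < Real.Gamma c1 := Real.Gamma_pos_of_pos hc1
    have a2 : ‖Psi1 k b T c1 u‖ ≤ (c1 + 1) * (1 + |u|) * (Real.exp (1 - Real.pi / 2 * |u|) *
        Real.Gamma c1 * (Real.pi / 2 * (1 + |u|)) ^ c1) / L1 := by
      rw [Psi1, norm_div, norm_neg, norm_mul]
      apply div_le_div₀ (by positivity) _ hL1 (h1 u).1
      exact mul_le_mul hw a1 (norm_nonneg _) (by positivity)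
    have a3 : (1 + |u|) ^ (5 / 2 - c) * (1 + |u|) * (1 + |u|) ^ c1 ≤ 1 / (1 + u ^ 2) := by
      have e1 : (1 + |u|) ^ (5 / 2 - c) * (1 + |u|) * (1 + |u|) ^ c1 =
          (1 + |u|) ^ (5 / 2 - c + 1 + c1) := by
        rw [Real.rpow_add hu, Real.rpow_add hu, Real.rpow_one]
      rw [e1]
      have b1 : (1 + |u|) ^ (5 / 2 - c + 1 + c1) ≤ (1 + |u|) ^ (-2 : ℝ) :=
        Real.rpow_le_rpow_of_exponent_le (by linarith [abs_nonneg u]) (by linarith)
      refine b1.trans ?_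
      rw [Real.rpow_neg hu.le, one_div]
      apply inv_anti₀ (by positivity)
      rw [Real.rpow_two]
      nlinarith [abs_nonneg u, sq_abs u]
    have e2 : Real.exp (Real.pi / 2 * |u|) * Real.exp (1 - Real.pi / 2 * |u|) = Real.exp 1 := by
      rw [← Real.exp_add]; congr 1; ring
    refine (mul_le_mul_of_nonneg_left a2 (by positivity)).trans ?_
    rw [Real.mul_rpow (by positivity) hu.le]
    have e3 : K0 * (1 + |u|) ^ (5 / 2 - c) * Real.exp (Real.pi / 2 * |u|) *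
        ((c1 + 1) * (1 + |u|) * (Real.exp (1 - Real.pi / 2 * |u|) * Real.Gamma c1 *
          ((Real.pi / 2) ^ c1 * (1 + |u|) ^ c1)) / L1) =
        K0 * ((c1 + 1) * (Real.exp 1 * Real.Gamma c1 * (Real.pi / 2) ^ c1) / L1) *
          ((1 + |u|) ^ (5 / 2 - c) * (1 + |u|) * (1 + |u|) ^ c1) := by
      rw [← e2]; ring
    rw [e3, div_eq_mul_one_div _ (1 + u ^ 2)]
    exact mul_le_mul_of_nonneg_left a3 (by positivity)

end Pool.Agent.H520Z.Sel
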