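import Pool.Agent.H437R2.A1
import Pool.Agent.Helper242.KK.Gam1

set_option autoImplicit false

namespace Pool.Agent.H458Z.Z1

open Complex

lemma real_gamma_le {σ : ℝ} (h : 1 / 2 ≤ σ) : Real.Gamma σ ≤ 2 * Real.exp ((σ + 2) ^ 2) := by
  have h0 : 0 < σ := by linarith
  have e1 : Real.Gamma (σ + 1) = σ * Real.Gamma σ := Real.Gamma_add_one h0.ne'
  have e2 : Real.Gamma (σ + 1 + 1) = (σ + 1) * Real.Gamma (σ + 1) :=
    Real.Gamma_add_one (by linarith)
  have hG : 0 < Real.Gamma σ := Real.Gamma_pos_of_pos h0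
  set n : ℕ := ⌈σ⌉₊ + 1 with hn
  have hn1 : σ + 1 ≤ n := by
    rw [hn]; push_cast; linarith [Nat.le_ceil σ]
  have hn2 : (n : ℝ) ≤ σ + 2 := by
    rw [hn]; push_cast; linarith [Nat.ceil_lt_add_one h0.le]
  have m1 : Real.Gamma (σ + 1 + 1) ≤ Real.Gamma (n + 1) :=
    Real.Gamma_strictMonoOn_Ici.monotoneOn (show (2 : ℝ) ≤ σ + 1 + 1 by linarith)
      (show (2 : ℝ) ≤ n + 1 by linarith) (by linarith)
  rw [Real.Gamma_nat_eq_factorial] at m1
  have m2 : (n.factorial : ℝ) ≤ (n : ℝ) ^ n := by exact_mod_cast Nat.factorial_le_pow n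
  have m3 : (n : ℝ) ^ n ≤ Real.exp n ^ n :=
    pow_le_pow_left₀ (by positivity) (by linarith [Real.add_one_le_exp (n : ℝ)]) n
  have m4 : Real.exp n ^ n ≤ Real.exp ((σ + 2) ^ 2) := by
    rw [← Real.exp_nat_mul]
    apply Real.exp_le_exp.2
    nlinarith
  have m5 : 1 / 2 * Real.Gamma σ ≤ (σ + 1) * (σ * Real.Gamma σ) := by
    have : (1 : ℝ) / 2 ≤ (σ + 1) * σ := by nlinarith
    nlinarith
  rw [e2, e1] at m1
  linarith

lemma norm_gamma_le {w : ℂ} (h : 0 < w.re) : ‖Gamma w‖ ≤ Real.Gamma w.re := by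
  have := Pool.Agent.Helper242.KK.norm_Gamma_le_of_angle (σ := w.re) (v := w.im) (θ := 0) h le_rfl
    (by linarith [Real.pi_pos])
  simpa using this

lemma norm_cos_le (z : ℂ) : ‖cos z‖ ≤ Real.exp ‖z‖ := by
  rw [Complex.cos, norm_div]
  have h := norm_add_le (exp (z * I)) (exp (-z * I))
  have a1 : ‖exp (z * I)‖ ≤ Real.exp ‖z‖ :=
    (Complex.norm_exp_le_exp_norm _).trans (by simp)
  have a2 : ‖exp (-z * I)‖ ≤ Real.exp ‖z‖ :=
    (Complex.norm_exp_le_exp_norm _).trans (by simp)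
  have : ‖(2 : ℂ)‖ = 2 := by simp
  rw [this]
  linarith

theorem z1_order : ∃ K c : ℝ, 0 ≤ K ∧ 0 ≤ c ∧
    ∀ s : ℂ, ‖riemannZeta₁ s‖ ≤ K * Real.exp (c * (1 + ‖s‖) ^ 2) := by
  obtain ⟨B, hB⟩ := (isCompact_closedBall (0 : ℂ) 1).exists_bound_of_continuousOn
    differentiable_riemannZeta₁.continuous.continuousOn
  have hB0 : 0 ≤ B := (norm_nonneg _).trans (hB 0 (by simp))
  refine ⟨48 + B, 13, by linarith, by norm_num, fun s => ?_⟩
  set x : ℝ := 1 + ‖s‖ with hx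
  have hx1 : 1 ≤ x := by linarith [norm_nonneg s]
  have hx2 : x ≤ x ^ 2 := by nlinarith
  have hE : x ^ 2 ≤ Real.exp (x ^ 2) := by linarith [Real.add_one_le_exp (x ^ 2)]
  have hE1 : 1 ≤ Real.exp (13 * x ^ 2) := Real.one_le_exp (by positivity)
  by_cases h1 : 1 / 2 ≤ s.re
  · have a1 := Pool.Agent.H437R2.z1_norm_le h1
    have a2 : Real.exp (x ^ 2) ≤ Real.exp (13 * x ^ 2) := Real.exp_le_exp.2 (by nlinarith)
    rw [add_comm ‖s‖ 1, ← hx] at a1
    nlinarith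
  by_cases h2 : ‖s‖ ≤ 1
  · have a1 := hB s (by simpa using h2)
    nlinarith
  push Not at h1 h2
  set w : ℂ := 1 - s with hw
  have hs : s = 1 - w := by rw [hw]; ring
  have hwre : 1 / 2 ≤ w.re := by rw [hw]; simp; linarith
  have hw1 : w ≠ 1 := by
    intro h
    have : s = 0 := by rw [hs, h, sub_self]
    rw [this] at h2
    norm_num at h2
  have hwn : ∀ n : ℕ, w ≠ -n := by
    intro n h
    rw [h] at hwre
    simp at hwre
    linarith [n.cast_nonneg (α := ℝ)]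
  have hs1 : s ≠ 1 := by
    intro h; rw [h] at h1; norm_num at h1
  have hwx : ‖w‖ ≤ x := by
    rw [hw]; refine (norm_sub_le _ _).trans ?_; simp [hx]
  have b1 : ‖s - 1‖ ≤ x := by rw [← norm_neg, neg_sub]; exact hwx
  have b2 : ‖(2 * (Real.pi : ℂ)) ^ (-w)‖ ≤ 1 := by
    have : (2 * (Real.pi : ℂ)) = ((2 * Real.pi : ℝ) : ℂ) := by push_cast; ring
    rw [this, Complex.norm_cpow_eq_rpow_re_of_pos (by positivity)]
    apply Real.rpow_le_one_of_one_le_of_nonpos (by linarith [Real.pi_gt_three])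
    simp only [neg_re]
    linarith
  have b3 : ‖Gamma w‖ ≤ 2 * Real.exp (9 * x ^ 2) := by
    refine (norm_gamma_le (by linarith)).trans ((real_gamma_le hwre).trans ?_)
    have := (re_le_norm w).trans hwx
    have : Real.exp ((w.re + 2) ^ 2) ≤ Real.exp (9 * x ^ 2) := Real.exp_le_exp.2 (by nlinarith)
    linarith
  have b4 : ‖cos (Real.pi * w / 2)‖ ≤ Real.exp (2 * x ^ 2) := by
    refine (norm_cos_le _).trans (Real.exp_le_exp.2 ?_)
    rw [norm_div, norm_mul, Complex.norm_real, Real.norm_eq_abs, abs_of_pos Real.pi_pos]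
    have : ‖(2 : ℂ)‖ = 2 := by simp
    rw [this]
    nlinarith [Real.pi_le_four, Real.pi_pos, norm_nonneg w]
  have b5 : ‖riemannZeta w‖ ≤ 12 * x ^ 2 := by
    have c1 := Pool.Agent.H437R2.z1_norm_le hwre
    rw [Pool.Agent.H437R2.z1_of_ne hw1, norm_mul] at c1
    have c2 : ‖w - 1‖ = ‖s‖ := by rw [hw, ← norm_neg]; congr 1; ring
    rw [c2] at c1
    have c3 : (‖w‖ + 1) ^ 2 ≤ (2 * x) ^ 2 := pow_le_pow_left₀ (by positivity) (by linarith) 2
    nlinarith [norm_nonneg (riemannZeta w)]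
  rw [Pool.Agent.H437R2.z1_of_ne hs1]
  have e : riemannZeta s = 2 * (2 * Real.pi) ^ (-w) * Gamma w * cos (Real.pi * w / 2) *
      riemannZeta w := by
    rw [← riemannZeta_one_sub hwn hw1, ← hs]
  rw [e]
  simp only [norm_mul]
  have n2 : ‖(2 : ℂ)‖ = 2 := by simp
  rw [n2]
  have d : ‖s - 1‖ * (2 * ‖(2 * (Real.pi : ℂ)) ^ (-w)‖ * ‖Gamma w‖ * ‖cos (Real.pi * w / 2)‖ *
      ‖riemannZeta w‖) ≤ Real.exp (x ^ 2) * (2 * 1 * (2 * Real.exp (9 * x ^ 2)) *
        Real.exp (2 * x ^ 2) * (12 * Real.exp (x ^ 2))) := by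
    gcongr
    · linarith
    · linarith
  refine d.trans ?_
  have e2 : Real.exp (13 * x ^ 2) =
      Real.exp (x ^ 2) * Real.exp (9 * x ^ 2) * Real.exp (2 * x ^ 2) * Real.exp (x ^ 2) := by
    rw [← Real.exp_add, ← Real.exp_add, ← Real.exp_add]; congr 1; ring
  have e3 : Real.exp (x ^ 2) * (2 * 1 * (2 * Real.exp (9 * x ^ 2)) *
        Real.exp (2 * x ^ 2) * (12 * Real.exp (x ^ 2))) = 48 * Real.exp (13 * x ^ 2) := by
    rw [e2]; ring
  rw [e3]
  nlinarith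

theorem dslope_order (f : ℂ → ℂ) (hf : Differentiable ℂ f) (z : ℂ) (hz : f z = 0)
    (h : ∃ K c : ℝ, 0 ≤ K ∧ 0 ≤ c ∧ ∀ s : ℂ, ‖f s‖ ≤ K * Real.exp (c * (1 + ‖s‖) ^ 2)) :
    Differentiable ℂ (dslope f z) ∧ ∃ K c : ℝ, 0 ≤ K ∧ 0 ≤ c ∧
      ∀ s : ℂ, ‖dslope f z s‖ ≤ K * Real.exp (c * (1 + ‖s‖) ^ 2) := by
  have hd : Differentiable ℂ (dslope f z) := by
    rw [← differentiableOn_univ]
    exact (Complex.differentiableOn_dslope Filter.univ_mem).2 hf.differentiableOn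
  refine ⟨hd, ?_⟩
  obtain ⟨K, c, hK, hc, h⟩ := h
  obtain ⟨B, hB⟩ := (isCompact_closedBall z 1).exists_bound_of_continuousOn
    hd.continuous.continuousOn
  have hB0 : 0 ≤ B := (norm_nonneg _).trans (hB z (by simp))
  refine ⟨K + B, c, by linarith, hc, fun s => ?_⟩
  have hE1 : 1 ≤ Real.exp (c * (1 + ‖s‖) ^ 2) := Real.one_le_exp (by positivity)
  by_cases h1 : ‖s - z‖ ≤ 1
  · have := hB s (by simpa [dist_eq_norm] using h1)
    nlinarith
  · push Not at h1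
    have hne : s ≠ z := by
      intro e; rw [e, sub_self, norm_zero] at h1; linarith
    rw [dslope_of_ne _ hne, slope_def_field, hz, sub_zero, norm_div]
    have a1 : ‖f s‖ / ‖s - z‖ ≤ ‖f s‖ := div_le_self (norm_nonneg _) h1.le
    have a2 := h s
    nlinarith

end Pool.Agent.H458Z.Z1
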